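import Pool.Agent.Helper33.PS.Defs

/-!
# Plan S: valuation ring and reduction
-/

set_option autoImplicit false
set_option linter.unusedSectionVars false

open Finset Polynomial

namespace Pool.Agent.Helper53.PS

open Pool.Agent.Helper33 Pool.Agent.Helper33.PS

section ring

variable {E : Type*} [Field E] (w : DV E)

/-- the valuation ring -/
def O : Subring E where
  carrier := {x | w.ge 0 x}
  mul_mem' := fun hx hy => by simpa using DV.ge_mul hx hy
  one_mem' := DV.ge_one
  add_mem' := DV.ge_add
  zero_mem' := DV.ge_zero 0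
  neg_mem' := DV.ge_neg

variable {w}

lemma mem_O {x : E} : x ∈ O w ↔ w.ge 0 x := Iff.rfl

lemma ge_zero_iff {x : E} (hx : x ≠ 0) : w.ge 0 x ↔ 0 ≤ w.o x := by
  unfold DV.ge
  constructor
  · rintro (h | h)
    · exact absurd h hx
    · exact_mod_cast h
  · intro h
    right
    exact_mod_cast h

lemma ge_one_iff {x : E} (hx : x ≠ 0) : w.ge 1 x ↔ 1 ≤ w.o x := by
  unfold DV.ge
  constructor
  · rintro (h | h)
    · exact absurd h hx
    · exact_mod_cast h
  · intro h
    right
    exact_mod_cast h

lemma div_mem {a b : E} (hb : b ≠ 0) (h : w.ge (w.o b) a) : a / b ∈ O w := by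
  rw [mem_O]
  by_cases ha : a = 0
  · rw [ha, zero_div]
    exact DV.ge_zero 0
  rw [ge_zero_iff (div_ne_zero ha hb), w.o_div a b ha hb]
  rcases h with h | h
  · exact absurd h ha
  · have : w.o b ≤ w.o a := by exact_mod_cast h
    omega

lemma isUnit_of_o {x : O w} (hx : (x : E) ≠ 0) (h : w.o (x : E) = 0) : IsUnit x := by
  refine isUnit_iff_exists_inv.2 ⟨⟨(x : E)⁻¹, ?_⟩, ?_⟩
  · rw [mem_O, ge_zero_iff (inv_ne_zero hx), w.o_inv _ hx]
    omega
  · apply Subtype.ext
    simp [hx]

end ring

section red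

variable {k E : Type*} [Field k] [Field E] [Algebra k E] {w : DV E}

lemma const_unique (h : ResK k w) {c c' : k} {x : E} (h1 : w.ge 1 (x - algebraMap k E c))
    (h2 : w.ge 1 (x - algebraMap k E c')) : c = c' := by
  by_contra hne
  have h3 := DV.ge_sub h1 h2
  have h4 : x - algebraMap k E c - (x - algebraMap k E c') = algebraMap k E (c' - c) := by
    rw [map_sub]
    ring
  rw [h4] at h3
  have h5 : c' - c ≠ 0 := sub_ne_zero.2 (Ne.symm hne)
  have h6 : algebraMap k E (c' - c) ≠ 0 := by
    rwa [Ne, map_eq_zero]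
  rw [ge_one_iff h6, h.const _ h5] at h3
  omega

/-- the residue -/
noncomputable def redFun (h : ResK k w) (x : O w) : k := Classical.choose (h.res x x.2)

lemma redFun_spec (h : ResK k w) (x : O w) : w.ge 1 ((x : E) - algebraMap k E (redFun h x)) :=
  Classical.choose_spec (h.res x x.2)

lemma redFun_eq (h : ResK k w) (x : O w) {c : k} (hc : w.ge 1 ((x : E) - algebraMap k E c)) :
    redFun h x = c := const_unique h (redFun_spec h x) hc

lemma const_mem (h : ResK k w) (c : k) : w.ge 0 (algebraMap k E c) := by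
  by_cases hc : c = 0
  · rw [hc, map_zero]
    exact DV.ge_zero 0
  · right
    rw [h.const c hc]
    simp

/-- the reduction map -/
noncomputable def red (h : ResK k w) : O w →+* k where
  toFun := redFun h
  map_one' := redFun_eq h _ (by simp [DV.ge_zero])
  map_zero' := redFun_eq h _ (by simp [DV.ge_zero])
  map_add' x y := by
    apply redFun_eq
    have h1 := DV.ge_add (redFun_spec h x) (redFun_spec h y)
    have h2 : ((x + y : O w) : E) - algebraMap k E (redFun h x + redFun h y) =
        ((x : E) - algebraMap k E (redFun h x)) + ((y : E) - algebraMap k E (redFun h y)) := by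
      rw [map_add]
      push_cast
      ring
    rw [h2]
    exact h1
  map_mul' x y := by
    apply redFun_eq
    have h1 := DV.ge_mul (redFun_spec h x) y.2
    have h2 := DV.ge_mul (const_mem h (redFun h x)) (redFun_spec h y)
    rw [add_zero] at h1
    rw [zero_add] at h2
    have h3 : ((x * y : O w) : E) - algebraMap k E (redFun h x * redFun h y) =
        ((x : E) - algebraMap k E (redFun h x)) * (y : E) +
          algebraMap k E (redFun h x) * ((y : E) - algebraMap k E (redFun h y)) := by
      rw [map_mul]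
      push_cast
      ring
    rw [h3]
    exact DV.ge_add h1 h2

lemma red_eq (h : ResK k w) (x : O w) {c : k} (hc : w.ge 1 ((x : E) - algebraMap k E c)) :
    red h x = c := redFun_eq h x hc

lemma red_eq_zero_iff (h : ResK k w) (x : O w) : red h x = 0 ↔ w.ge 1 (x : E) := by
  constructor
  · intro h0
    have h1 := redFun_spec h x
    have h2 : redFun h x = 0 := h0
    rw [h2, map_zero, sub_zero] at h1
    exact h1
  · intro h0
    apply red_eq
    rwa [map_zero, sub_zero]

lemma isUnit_of_red (h : ResK k w) (x : O w) (hx : red h x ≠ 0) : IsUnit x := by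
  have h1 : (x : E) ≠ 0 := by
    intro h0
    apply hx
    rw [red_eq_zero_iff, h0]
    exact DV.ge_zero 1
  refine isUnit_of_o h1 ?_
  have h2 := (ge_zero_iff (w := w) h1).1 x.2
  have h3 : ¬ w.ge 1 (x : E) := fun h' => hx ((red_eq_zero_iff h x).2 h')
  rw [ge_one_iff h1] at h3
  omega

/-- the constant `c` as an element of the valuation ring -/
noncomputable def cst (h : ResK k w) (c : k) : O w := ⟨algebraMap k E c, const_mem h c⟩

lemma red_cst (h : ResK k w) (c : k) : red h (cst h c) = c := by
  apply red_eq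
  change w.ge 1 (algebraMap k E c - algebraMap k E c)
  rw [sub_self]
  exact DV.ge_zero 1

end red

section lift

variable {k E : Type*} [Field k] [Field E] [Algebra k E] {w : DV E}

/-- a polynomial with integral coefficients, as a polynomial over the valuation ring -/
lemma exists_lift {P : E[X]} (hP : ∀ i, w.ge 0 (P.coeff i)) :
    ∃ P₀ : (O w)[X], P₀.map (O w).subtype = P ∧ P₀.natDegree = P.natDegree := by
  have h : (↑P.coeffs : Set E) ⊆ O w := by
    intro x hx
    rw [Finset.mem_coe, Polynomial.mem_coeffs_iff] at hx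
    obtain ⟨n, -, rfl⟩ := hx
    exact hP n
  exact ⟨P.toSubring (O w) h, Polynomial.map_toSubring P (O w) h, Polynomial.natDegree_toSubring P (O w) h⟩

lemma isRat_of_resultant {d : ℕ} (hd : 1 ≤ d) {A B : k[X]} (hA : A.natDegree ≤ d)
    (hB : B.natDegree ≤ d) (h : resultant A B d d ≠ 0) : IsRat A B d := by
  refine ⟨?_, hA, hB, ?_⟩
  · obtain ⟨p, q, -, -, hpq⟩ := exists_mul_add_mul_eq_C_resultant A B hA hB (Or.inl (by omega))
    refine ⟨C (resultant A B d d)⁻¹ * p, C (resultant A B d d)⁻¹ * q, ?_⟩
    calc C (resultant A B d d)⁻¹ * p * A + C (resultant A B d d)⁻¹ * q * B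
        = C (resultant A B d d)⁻¹ * (A * p + B * q) := by ring
      _ = 1 := by rw [hpq, ← C_mul, inv_mul_cancel₀ h, C_1]
  · by_contra hcon
    push Not at hcon
    apply h
    refine resultant_eq_zero_of_lt_lt A B d d ?_ ?_
    · rcases hA.lt_or_eq with h1 | h1
      · exact h1
      · exfalso
        have h2 := hcon.1
        rw [← h1, coeff_natDegree, leadingCoeff_eq_zero] at h2
        rw [h2, natDegree_zero] at h1
        omega
    · rcases hB.lt_or_eq with h1 | h1
      · exact h1
      · exfalso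
        have h2 := hcon.2
        rw [← h1, coeff_natDegree, leadingCoeff_eq_zero] at h2
        rw [h2, natDegree_zero] at h1
        omega

lemma res_ne_zero_aux {K : Type*} [Field K] {d : ℕ} (hd : 1 ≤ d) {P Q : K[X]}
    (h : IsCoprime P Q) (hQ : Q.natDegree ≤ d) (hP : P.natDegree = d) :
    resultant P Q d d ≠ 0 := by
  obtain ⟨k, hk⟩ := Nat.exists_eq_add_of_le hQ
  have h0 : P.coeff d ≠ 0 := by
    rw [← hP, coeff_natDegree, Ne, leadingCoeff_eq_zero]
    rintro rfl
    simp at hP
    omega
  have h1 : resultant P Q d (Q.natDegree + k) = P.coeff d ^ k * resultant P Q d Q.natDegree :=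
    resultant_add_right_deg _ _ _ _ _ le_rfl
  rw [← hk] at h1
  rw [h1]
  refine mul_ne_zero (pow_ne_zero _ h0) ?_
  rw [← hP]
  exact resultant_ne_zero P Q h

lemma res_ne_zero {K : Type*} [Field K] {d : ℕ} (hd : 1 ≤ d) {P Q : K[X]} (h : IsRat P Q d) :
    resultant P Q d d ≠ 0 := by
  rcases h.top with h1 | h1
  · exact res_ne_zero_aux hd h.cop h.dB (le_antisymm h.dA (le_natDegree_of_ne_zero h1))
  · rw [resultant_comm]
    exact mul_ne_zero (pow_ne_zero _ (neg_ne_zero.2 one_ne_zero))
      (res_ne_zero_aux hd h.cop.symm h.dA (le_antisymm h.dB (le_natDegree_of_ne_zero h1)))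

/-- normal form of a map with good reduction -/
lemma exists_normal (h : ResK k w) {d : ℕ} (hd : 1 ≤ d) {A B : E[X]} (hAB : IsRat A B d)
    (hg : IsGood w d A B) :
    ∃ (c : E) (A₀ B₀ : (O w)[X]), c ≠ 0 ∧ A = C c * A₀.map (O w).subtype ∧
      B = C c * B₀.map (O w).subtype ∧ A₀.natDegree ≤ d ∧ B₀.natDegree ≤ d ∧
      IsRat (A₀.map (red h)) (B₀.map (red h)) d := by
  obtain ⟨c, hc, hA, hB, hr⟩ := hg
  have hA' : ∀ i, w.ge 0 ((C c⁻¹ * A).coeff i) := fun i => by
    rw [coeff_C_mul, mul_comm, ← div_eq_mul_inv]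
    exact div_mem hc (hA i)
  have hB' : ∀ i, w.ge 0 ((C c⁻¹ * B).coeff i) := fun i => by
    rw [coeff_C_mul, mul_comm, ← div_eq_mul_inv]
    exact div_mem hc (hB i)
  obtain ⟨A₀, hA₀, hAd⟩ := exists_lift hA'
  obtain ⟨B₀, hB₀, hBd⟩ := exists_lift hB'
  have hAd' : A₀.natDegree ≤ d := by
    rw [hAd]
    exact (natDegree_C_mul_le _ _).trans hAB.dA
  have hBd' : B₀.natDegree ≤ d := by
    rw [hBd]
    exact (natDegree_C_mul_le _ _).trans hAB.dB
  have hcc : C c * C c⁻¹ = (1 : E[X]) := by rw [← C_mul, mul_inv_cancel₀ hc, C_1]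
  refine ⟨c, A₀, B₀, hc, ?_, ?_, hAd', hBd', ?_⟩
  · rw [hA₀, ← mul_assoc, hcc, one_mul]
  · rw [hB₀, ← mul_assoc, hcc, one_mul]
  · refine isRat_of_resultant hd ((natDegree_map_le).trans hAd') ((natDegree_map_le).trans hBd') ?_
    rw [resultant_map_map]
    -- the resultant of the normalised forms is a unit
    have h1 : ((resultant A₀ B₀ d d : O w) : E) = c⁻¹ ^ d * (c⁻¹ ^ d * resultant A B d d) := by
      have h2 := resultant_map_map A₀ B₀ d d (O w).subtype
      rw [hA₀, hB₀, resultant_C_mul_left, resultant_C_mul_right] at h2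
      exact h2.symm
    have hres : resultant A B d d ≠ 0 := res_ne_zero hd hAB
    have h3 : ((resultant A₀ B₀ d d : O w) : E) ≠ 0 := by
      rw [h1]
      have := inv_ne_zero hc
      positivity
    have h4 : w.o ((resultant A₀ B₀ d d : O w) : E) = 0 := by
      rw [h1, w.mul _ _ (pow_ne_zero _ (inv_ne_zero hc)) (mul_ne_zero (pow_ne_zero _ (inv_ne_zero hc)) hres),
        w.mul _ _ (pow_ne_zero _ (inv_ne_zero hc)) hres, w.o_pow _ (inv_ne_zero hc), w.o_inv c hc, hr]
      ring
    have h5 := isUnit_of_o h3 h4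
    exact (h5.map (red h)).ne_zero

end lift

end Pool.Agent.Helper53.PS
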