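import Pool.Agent.Helper53.PS.Red

/-!
# Plan S, module M6c: reduction of the algebraic relation
-/

set_option autoImplicit false
set_option linter.unusedSectionVars false

open Finset Polynomial

namespace Pool.Agent.Helper53.PS

open Pool.Agent.Helper33 Pool.Agent.Helper33.PS

section general

variable {R S : Type*} [CommRing R] [CommRing S]

lemma eval_eval_eq (p : R[X][X]) (s : R[X]) (x : R) :
    (p.eval s).eval x = (p.eval (C (s.eval x))).eval x := by
  have h : ∀ s' : R[X], (p.eval s').eval x = p.eval₂ (evalRingHom x) (s'.eval x) := by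
    intro s'
    have := hom_eval₂ p (RingHom.id R[X]) (evalRingHom x) s'
    simpa using this
  rw [h s, h (C (s.eval x)), eval_C]

lemma map_eval_eval (f : R →+* S) (p : R[X][X]) (x u : R) :
    ((p.map (mapRingHom f)).eval (C (f u))).eval (f x) = f ((p.eval (C u)).eval x) := by
  have := map_mapRingHom_evalEval f p x u
  simpa [evalEval] using this

/-- degree bound for all coefficients -/
def CB (N : ℕ) (F : R[X][X]) : Prop := ∀ s, (F.coeff s).natDegree ≤ N

lemma CB.mul {N M : ℕ} {F G : R[X][X]} (hF : CB N F) (hG : CB M G) : CB (N + M) (F * G) := by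
  intro s
  rw [coeff_mul]
  exact natDegree_sum_le_of_forall_le _ _ fun e _ => natDegree_mul_le_of_le (hF _) (hG _)

lemma CB.one : CB 0 (1 : R[X][X]) := by
  intro s
  rw [coeff_one]
  split_ifs <;> simp

lemma CB.pow {F : R[X][X]} (hF : CB 1 F) (n : ℕ) : CB n (F ^ n) := by
  induction n with
  | zero => rw [pow_zero]; exact CB.one
  | succ n ih => rw [pow_succ]; exact ih.mul hF

lemma CB.mono {N M : ℕ} {F : R[X][X]} (hF : CB N F) (h : N ≤ M) : CB M F := fun s => (hF s).trans h

lemma CB.sum {N : ℕ} {α : Type*} (s : Finset α) (f : α → R[X][X]) (h : ∀ a ∈ s, CB N (f a)) :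
    CB N (∑ a ∈ s, f a) := by
  intro i
  rw [finset_sum_coeff]
  exact natDegree_sum_le_of_forall_le _ _ fun a ha => h a ha i

lemma CB_lin (t : R) : CB 1 (C X + C (C t) * X : R[X][X]) := by
  intro s
  rw [coeff_add, coeff_C, coeff_C_mul, coeff_X]
  split_ifs with h1 h2 h2
  · omega
  · rw [mul_zero, add_zero]
    exact natDegree_X_le
  · simp
  · simp

lemma CB_comp {m : ℕ} {p : R[X][X]} (hpd : p.natDegree < m)
    (hpc : ∀ i, (p.coeff i).natDegree < m) (t : R) :
    CB (2 * m - 1) (p.comp (C X + C (C t) * X)) := by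
  rw [comp_eq_sum_left, Polynomial.sum_def]
  refine CB.sum _ _ fun i hi => ?_
  have h1 : CB (m - 1) (C (p.coeff i) : R[X][X]) := by
    intro s
    rw [coeff_C]
    have := hpc i
    split_ifs
    · omega
    · simp
  have h2 := h1.mul (CB.pow (CB_lin t) i)
  have h3 : i ≤ p.natDegree := le_natDegree_of_mem_supp i hi
  exact h2.mono (by omega)

end general

section rel

variable {k E : Type*} [Field k] [Field E] [Algebra k E] {w : DV E}

lemma exists_rel (h : ResK k w) {m : ℕ} {p : E[X][X]} (hp : p ≠ 0) (hpd : p.natDegree < m)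
    (hpc : ∀ i, (p.coeff i).natDegree < m) {t : O w} (ht : t ≠ 0) {n₁ : ℕ} {x u : ℕ → O w}
    (hrel : ∀ j ≤ n₁, (p.eval (C ((x j + t * u j : O w) : E))).eval (x j : E) = 0) :
    ∃ q : k[X][X], q ≠ 0 ∧ q.natDegree < 2 * m ∧ (∀ i, (q.coeff i).natDegree < 2 * m) ∧
      ∀ j ≤ n₁, (q.eval (C (red h (u j)))).eval (red h (x j)) = 0 := by
  classical
  have htE : (t : E) ≠ 0 := fun h0 => ht (Subtype.ext h0)
  set g : E[X][X] := C X + C (C (t : E)) * X with hg
  set P₁ := p.comp g with hP₁
  have hg1 : g.coeff 1 ≠ 0 := by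
    rw [hg, coeff_add, coeff_C, if_neg one_ne_zero, coeff_C_mul, coeff_X_one, mul_one, zero_add]
    exact C_ne_zero.2 htE
  have hP₁0 : P₁ ≠ 0 := by
    intro h0
    rw [hP₁, comp_eq_zero_iff] at h0
    rcases h0 with h0 | ⟨-, h0⟩
    · exact hp h0
    · apply hg1
      rw [h0, coeff_C, if_neg one_ne_zero]
  have hgd : g.natDegree ≤ 1 := by
    refine natDegree_add_le_of_degree_le ?_ ?_
    · rw [natDegree_C]; omega
    · exact (natDegree_C_mul_le _ _).trans natDegree_X_le
  have hP₁d : P₁.natDegree < 2 * m := by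
    have h1 : P₁.natDegree ≤ p.natDegree * g.natDegree := natDegree_comp_le
    have h2 : p.natDegree * g.natDegree ≤ p.natDegree * 1 := Nat.mul_le_mul_left _ hgd
    omega
  have hP₁c : ∀ s, (P₁.coeff s).natDegree < 2 * m := fun s => by
    have := CB_comp hpd hpc (t : E) s
    rw [← hg, ← hP₁] at this
    omega
  have hP₁e : ∀ j ≤ n₁, (P₁.eval (C (u j : E))).eval (x j : E) = 0 := by
    intro j hj
    rw [hP₁, eval_comp, eval_eval_eq]
    have e1 : ((g.eval (C (u j : E))).eval (x j : E)) = ((x j + t * u j : O w) : E) := by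
      rw [hg]
      simp
    rw [e1]
    exact hrel j hj
  -- the smallest coefficient
  set Z := (range (2 * m) ×ˢ range (2 * m)).filter
    (fun q => (P₁.coeff q.1).coeff q.2 ≠ 0) with hZ
  have hZne : Z.Nonempty := by
    obtain ⟨s, hs⟩ : ∃ s, P₁.coeff s ≠ 0 := by
      by_contra hcon
      push Not at hcon
      exact hP₁0 (Polynomial.ext fun s => by rw [hcon s, coeff_zero])
    obtain ⟨i, hi⟩ : ∃ i, (P₁.coeff s).coeff i ≠ 0 := by
      by_contra hcon
      push Not at hcon
      exact hs (Polynomial.ext fun i => by rw [hcon i, coeff_zero])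
    refine ⟨(s, i), ?_⟩
    rw [hZ, mem_filter, mem_product, mem_range, mem_range]
    exact ⟨⟨(le_natDegree_of_ne_zero hs).trans_lt hP₁d,
      (le_natDegree_of_ne_zero hi).trans_lt (hP₁c s)⟩, hi⟩
  obtain ⟨⟨s₀, i₀⟩, hmem, hmin⟩ := Finset.exists_min_image Z
    (fun q => w.o ((P₁.coeff q.1).coeff q.2)) hZne
  set π := (P₁.coeff s₀).coeff i₀ with hπ
  have hπ0 : π ≠ 0 := by
    rw [hZ, mem_filter] at hmem
    exact hmem.2
  have hint : ∀ s i, w.ge 0 ((C π⁻¹ * P₁.coeff s).coeff i) := by
    intro s i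
    rw [coeff_C_mul, mul_comm, ← div_eq_mul_inv]
    refine div_mem hπ0 ?_
    by_cases h0 : (P₁.coeff s).coeff i = 0
    · rw [h0]
      exact DV.ge_zero _
    right
    have h1 : (s, i) ∈ Z := by
      rw [hZ, mem_filter, mem_product, mem_range, mem_range]
      have hs : P₁.coeff s ≠ 0 := by
        intro h2
        rw [h2, coeff_zero] at h0
        exact h0 rfl
      exact ⟨⟨(le_natDegree_of_ne_zero hs).trans_lt hP₁d,
        (le_natDegree_of_ne_zero h0).trans_lt (hP₁c s)⟩, h0⟩
    exact_mod_cast hmin (s, i) h1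
  choose F hF hFd using fun s => exists_lift (w := w) (hint s)
  set P₂ : (O w)[X][X] := ∑ s ∈ range (2 * m), monomial s (F s) with hP₂
  have hP₂c : ∀ s, s < 2 * m → P₂.coeff s = F s := by
    intro s hs
    rw [hP₂, finset_sum_coeff, sum_eq_single s]
    · rw [coeff_monomial, if_pos rfl]
    · intro s' _ hne
      rw [coeff_monomial, if_neg hne]
    · intro h0
      exact absurd (mem_range.2 hs) h0
  have hP₂c' : ∀ s, 2 * m ≤ s → P₂.coeff s = 0 := by
    intro s hs
    rw [hP₂, finset_sum_coeff]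
    refine sum_eq_zero fun s' hs' => ?_
    rw [mem_range] at hs'
    rw [coeff_monomial, if_neg (by omega)]
  have hP₂map : P₂.map (mapRingHom (O w).subtype) = C (C π⁻¹) * P₁ := by
    ext1 s
    rw [coeff_map, coeff_C_mul, coe_mapRingHom]
    by_cases hs : s < 2 * m
    · rw [hP₂c s hs, hF s]
    · rw [hP₂c' s (by omega), Polynomial.map_zero,
        coeff_eq_zero_of_natDegree_lt (by omega : P₁.natDegree < s), mul_zero]
  refine ⟨P₂.map (mapRingHom (red h)), ?_, ?_, ?_, ?_⟩
  · intro h0
    have h1 : ((P₂.map (mapRingHom (red h))).coeff s₀).coeff i₀ = 0 := by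
      rw [h0, coeff_zero, coeff_zero]
    have hs₀ : s₀ < 2 * m := by
      rw [hZ, mem_filter, mem_product, mem_range, mem_range] at hmem
      exact hmem.1.1
    rw [coeff_map, hP₂c s₀ hs₀, coe_mapRingHom, coeff_map] at h1
    have h2 : (F s₀).coeff i₀ = 1 := by
      apply Subtype.ext
      have h3 := congrArg (fun G => G.coeff i₀) (hF s₀)
      simp only [coeff_map, coeff_C_mul] at h3
      rw [← hπ, inv_mul_cancel₀ hπ0] at h3
      exact h3
    rw [h2, map_one] at h1
    exact one_ne_zero h1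
  · refine lt_of_le_of_lt natDegree_map_le ?_
    by_contra hcon
    push Not at hcon
    have h1 := hP₂c' _ hcon
    rw [coeff_natDegree, leadingCoeff_eq_zero] at h1
    rw [h1, natDegree_zero] at hcon
    omega
  · intro i
    rw [coeff_map, coe_mapRingHom]
    refine lt_of_le_of_lt natDegree_map_le ?_
    by_cases hi : i < 2 * m
    · rw [hP₂c i hi, hFd]
      exact lt_of_le_of_lt (natDegree_C_mul_le _ _) (hP₁c i)
    · rw [hP₂c' i (by omega), natDegree_zero]
      omega
  · intro j hj
    rw [map_eval_eval]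
    have h1 : ((P₂.eval (C (u j))).eval (x j) : O w) = 0 := by
      apply Subtype.ext
      have h2 := map_eval_eval (O w).subtype P₂ (x j) (u j)
      rw [hP₂map] at h2
      rw [eval_mul, eval_C, eval_mul, eval_C] at h2
      have h3 := hP₁e j hj
      change π⁻¹ * ((P₁.eval (C (u j : E))).eval (x j : E)) = _ at h2
      rw [h3, mul_zero] at h2
      exact h2.symm
    rw [h1, map_zero]

end rel

end Pool.Agent.Helper53.PS
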