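import Pool.Agent.Helper53.PS.Round
import Pool.Agent.Helper53.PS.Rel
import Pool.Agent.Helper93.RatHev

/-!
# Plan S, module M6c: rigidity
-/

set_option autoImplicit false
set_option linter.unusedSectionVars false

open Finset Polynomial

namespace Pool.Agent.Helper53.PS

open Pool.Agent.Helper33 Pool.Agent.Helper33.PS Pool.Agent.Helper93.RatODE

/-- the statement of module M6b -/
def DescentStmt (d m : ℕ) : Prop := ∃ C₀ n₀ : ℕ, ∀ {k : Type} [Field k] [IsAlgClosed k]
    [CharZero k] (A B E : k[X]), IsRat A B d → E.natDegree ≤ 2 * d →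
    ∀ n n₁ : ℕ, n₀ ≤ n₁ → n₁ ≤ n → ∀ x u : ℕ → k, Orb A B x n →
    (∀ i ≤ n, ∀ j ≤ n, x i = x j → i = j) →
    (∀ j < n, u (j + 1) = ((derivative A * B - A * derivative B).eval (x j) * u j + E.eval (x j)) /
      (B.eval (x j)) ^ 2) →
    ∀ p : Polynomial (Polynomial k), p ≠ 0 → p.natDegree < m → (∀ i, (p.coeff i).natDegree < m) →
      (∀ j ≤ n₁, (p.eval (C (u j))).eval (x j) = 0) →
    ∃ b : k[X], b.natDegree ≤ 2 ∧ (∀ j, C₀ ≤ j → j ≤ n → u j = b.eval (x j)) ∧
      hev b 2 A B - (derivative A * B - A * derivative B) * b = E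

section field

variable {k : Type*} [Field k]

/-- two proportional reduced fractions of the same degree -/
lemma exists_scalar {d : ℕ} (hd : 1 ≤ d) {A B P Q : k[X]} (hAB : IsRat A B d) (hPQ : IsRat P Q d)
    (h : P * B = A * Q) : ∃ κ : k, κ ≠ 0 ∧ P = C κ * A ∧ Q = C κ * B := by
  have hA0 : A ≠ 0 := by
    intro h0
    have h1 : IsUnit B := by
      have := hAB.cop
      rw [h0, isCoprime_zero_left] at this
      exact this
    have h2 := natDegree_eq_zero_of_isUnit h1
    rcases hAB.top with h3 | h3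
    · rw [h0, coeff_zero] at h3; exact h3 rfl
    · exact h3 (coeff_eq_zero_of_natDegree_lt (by omega))
  have h1 : A ∣ P := by
    have h2 : A ∣ P * B := ⟨Q, h⟩
    exact hAB.cop.dvd_of_dvd_mul_right h2
  have h2 : P ∣ A := by
    have h3 : P ∣ A * Q := ⟨B, h.symm⟩
    exact hPQ.cop.dvd_of_dvd_mul_right h3
  obtain ⟨v, hv⟩ := associated_of_dvd_dvd h1 h2
  obtain ⟨κ, hκ, hκv⟩ := Polynomial.isUnit_iff.1 v.isUnit
  refine ⟨κ, hκ.ne_zero, ?_, ?_⟩
  · rw [hκv, mul_comm]; exact hv.symm
  · have h4 : A * Q = A * (C κ * B) := by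
      rw [← h, ← hv, ← hκv]
      ring
    exact mul_left_cancel₀ hA0 h4

lemma wronskian_ne_zero [CharZero k] {d : ℕ} (hd : 1 ≤ d) {A B : k[X]} (hAB : IsRat A B d) :
    derivative A * B - A * derivative B ≠ 0 := by
  intro h
  have h1 : A * derivative B = derivative A * B := (sub_eq_zero.1 h).symm
  have key : ∀ G : k[X], G ∣ derivative G → G.natDegree = 0 := by
    intro G hG
    by_contra hne
    have h2 : derivative G ≠ 0 := fun h0 => hne (natDegree_eq_zero_of_derivative_eq_zero h0)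
    have h3 := natDegree_le_of_dvd hG h2
    have h4 := natDegree_derivative_lt hne
    omega
  have hB : B ∣ derivative B := by
    have h2 : B ∣ A * derivative B := ⟨derivative A, by rw [h1]; ring⟩
    exact hAB.cop.symm.dvd_of_dvd_mul_left h2
  have hA : A ∣ derivative A := by
    have h2 : A ∣ derivative A * B := ⟨derivative B, h1.symm⟩
    exact hAB.cop.dvd_of_dvd_mul_right h2
  have hB0 := key B hB
  have hA0 := key A hA
  rcases hAB.top with h3 | h3
  · exact h3 (coeff_eq_zero_of_natDegree_lt (by omega))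
  · exact h3 (coeff_eq_zero_of_natDegree_lt (by omega))

lemma wronskian_natDegree {d : ℕ} (hd : 1 ≤ d) {A B : k[X]} (hAB : IsRat A B d) :
    (derivative A * B - A * derivative B).natDegree ≤ 2 * d - 1 := by
  have h1 := natDegree_derivative_le A
  have h2 := natDegree_derivative_le B
  have h3 := hAB.dA
  have h4 := hAB.dB
  have h5 : (derivative A * B).natDegree ≤ 2 * d - 1 := natDegree_mul_le.trans (by omega)
  have h6 : (A * derivative B).natDegree ≤ 2 * d - 1 := natDegree_mul_le.trans (by omega)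
  have := natDegree_sub_le_of_le h5 h6
  rwa [max_self] at this

end field

section main

variable {k E : Type} [Field k] [IsAlgClosed k] [CharZero k] [Field E] [Algebra k E] {w : DV E}

/-- the reduced situation: all objects over the valuation ring, normalised -/
structure Sit (h : ResK k w) (d : ℕ) (A B P Q : (O w)[X]) (x y : ℕ → O w) (n : ℕ) : Prop where
  hA : A.natDegree ≤ d
  hB : B.natDegree ≤ d
  hP : P.natDegree ≤ d
  hQ : Q.natDegree ≤ d
  hrat : IsRat (A.map (red h)) (B.map (red h)) d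
  hPA : P.map (red h) = A.map (red h)
  hQB : Q.map (red h) = B.map (red h)
  hxs : ∀ j < n, B.eval (x j) * x (j + 1) = A.eval (x j)
  hys : ∀ j < n, Q.eval (y j) * y (j + 1) = P.eval (y j)
  hxy : ∀ j ≤ n, red h (y j) = red h (x j)
  hinj : ∀ i ≤ n, ∀ j ≤ n, i ≠ j → red h (x i) ≠ red h (x j)

lemma red_eval (h : ResK k w) (G : (O w)[X]) (z : O w) :
    red h (G.eval z) = (G.map (red h)).eval (red h z) := by
  rw [eval_map, eval₂_at_apply]

/-- the denominator does not vanish on the reduced orbit -/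
lemma den_ne_zero (h : ResK k w) {d : ℕ} {A B : (O w)[X]}
    (hrat : IsRat (A.map (red h)) (B.map (red h)) d) {z z' : O w}
    (hz : B.eval z * z' = A.eval z) : (B.map (red h)).eval (red h z) ≠ 0 := by
  intro h0
  have h1 := congrArg (red h) hz
  rw [map_mul, red_eval, red_eval, h0, zero_mul] at h1
  obtain ⟨a, b, hab⟩ := hrat.cop
  have h2 := congrArg (eval (red h z)) hab
  rw [eval_add, eval_mul, eval_mul, h0, ← h1, mul_zero, mul_zero, add_zero, eval_one] at h2
  exact zero_ne_one h2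

variable {h : ResK k w} {d m : ℕ} {A B P Q : (O w)[X]} {x y : ℕ → O w} {n : ℕ}

/-- one round -/
lemma one_round (hd : 2 ≤ d) {C₀ n₀ : ℕ}
    (hdesc : ∀ (A B E : k[X]), IsRat A B d → E.natDegree ≤ 2 * d →
      ∀ n n₁ : ℕ, n₀ ≤ n₁ → n₁ ≤ n → ∀ x u : ℕ → k, Orb A B x n →
      (∀ i ≤ n, ∀ j ≤ n, x i = x j → i = j) →
      (∀ j < n, u (j + 1) = ((derivative A * B - A * derivative B).eval (x j) * u j +
        E.eval (x j)) / (B.eval (x j)) ^ 2) →
      ∀ p : Polynomial (Polynomial k), p ≠ 0 → p.natDegree < 2 * m →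
        (∀ i, (p.coeff i).natDegree < 2 * m) →
        (∀ j ≤ n₁, (p.eval (C (u j))).eval (x j) = 0) →
      ∃ b : k[X], b.natDegree ≤ 2 ∧ (∀ j, C₀ ≤ j → j ≤ n → u j = b.eval (x j)) ∧
        hev b 2 A B - (derivative A * B - A * derivative B) * b = E)
    (S : Sit h d A B P Q x y n) {p : E[X][X]} (hp : p ≠ 0) (hpd : p.natDegree < m)
    (hpc : ∀ i, (p.coeff i).natDegree < m) {n₁ : ℕ} (hn₁ : n₁ ≤ n)
    (hrel : ∀ j ≤ n₁, (p.eval (C (y j : E))).eval (x j : E) = 0)
    {b : ℕ} (hb : b + C₀ + n₀ + (2 * d + 1) ≤ n₁)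
    {i₁ i₂ i₃ : ℕ} (h12 : i₁ ≠ i₂) (h13 : i₁ ≠ i₃) (h23 : i₂ ≠ i₃) (hi₁ : b + C₀ ≤ i₁)
    (hi₂ : b + C₀ ≤ i₂) (hi₃ : b + C₀ ≤ i₃) (hi₁' : i₁ ≤ n) (hi₂' : i₂ ≤ n) (hi₃' : i₃ ≤ n)
    (he₁ : x i₁ = y i₁) (he₂ : x i₂ = y i₂) (he₃ : x i₃ = y i₃) :
    (∀ j, b ≤ j → j ≤ n → x j = y j) ∨
    ∃ b', b < b' ∧ b' ≤ b + C₀ ∧ (derivative (A.map (red h)) * B.map (red h) -
      A.map (red h) * derivative (B.map (red h))).eval (red h (x (b' - 1))) = 0 := by
  classical
  by_cases hall : ∀ j, b ≤ j → j ≤ n → x j = y j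
  · exact Or.inl hall
  right
  push Not at hall
  obtain ⟨j₁, hj₁, hj₁', hne₁⟩ := hall
  -- the index with the smallest order
  set Z := (Finset.Icc b n).filter (fun j => x j ≠ y j) with hZ
  have hZne : Z.Nonempty := ⟨j₁, by rw [hZ, mem_filter, mem_Icc]; exact ⟨⟨hj₁, hj₁'⟩, hne₁⟩⟩
  obtain ⟨s, hs, hmin⟩ := Finset.exists_min_image Z (fun j => w.o ((y j - x j : O w) : E)) hZne
  rw [hZ, mem_filter, mem_Icc] at hs
  obtain ⟨⟨hsb, hsn⟩, hsne⟩ := hs
  set t : O w := y s - x s with ht
  have ht0 : t ≠ 0 := sub_ne_zero.2 (Ne.symm hsne)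
  have htE : (t : E) ≠ 0 := fun h0 => ht0 (Subtype.ext h0)
  have htr : red h t = 0 := by rw [ht, map_sub, S.hxy s hsn, sub_self]
  have hdiv : ∀ j, b ≤ j → j ≤ n → ((y j - x j : O w) : E) / (t : E) ∈ O w := by
    intro j hj hj'
    refine div_mem htE ?_
    by_cases hxy : x j = y j
    · rw [hxy, sub_self]
      exact DV.ge_zero _
    · right
      exact_mod_cast hmin j (by rw [hZ, mem_filter, mem_Icc]; exact ⟨⟨hj, hj'⟩, hxy⟩)
  set u : ℕ → O w := fun j => if hj : b + j ≤ n then
    ⟨((y (b + j) - x (b + j) : O w) : E) / (t : E), hdiv (b + j) (by omega) hj⟩ else 0 with hu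
  have hu1 : ∀ j, b + j ≤ n → y (b + j) = x (b + j) + t * u j := by
    intro j hj
    apply Subtype.ext
    rw [hu]
    simp only [dif_pos hj]
    push_cast
    field_simp
    ring
  -- one round
  obtain ⟨F, hFd, hF⟩ := round_step (red h) (fun r hr => isUnit_of_red h r hr) S.hA S.hB S.hP S.hQ
    S.hPA S.hQB (n := n - b) (by omega) (x := fun j => x (b + j)) (y := fun j => y (b + j)) (u := u)
    ht0 htr (fun j hj => hu1 j (by omega))
    (fun j hj => S.hxs (b + j) (by omega)) (fun j hj => S.hys (b + j) (by omega))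
    (fun i hi j hj hij => S.hinj (b + i) (by omega) (b + j) (by omega) (by omega))
    (fun j hj => den_ne_zero h S.hrat (S.hxs (b + j) (by omega)))
  -- the relation
  obtain ⟨q, hq0, hqd, hqc, hqe⟩ := exists_rel h hp hpd hpc (t := t) ht0 (n₁ := n₁ - b)
    (x := fun j => x (b + j)) (u := u) (by
      intro j hj
      rw [← hu1 j (by omega)]
      exact hrel (b + j) (by omega))
  have horb : Orb (A.map (red h)) (B.map (red h)) (fun j => red h (x (b + j))) (n - b) := by
    constructor
    · intro j hj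
      exact den_ne_zero h S.hrat (S.hxs (b + j) (by omega))
    · intro j hj
      have h1 := den_ne_zero h S.hrat (S.hxs (b + j) (by omega))
      rw [eq_div_iff h1, ← red_eval, ← red_eval, ← map_mul, mul_comm]
      exact congrArg (red h) (S.hxs (b + j) (by omega))
  obtain ⟨g, hgd, hg, hgE⟩ := hdesc (A.map (red h)) (B.map (red h)) F S.hrat hFd (n - b) (n₁ - b)
    (by omega) (by omega) (fun j => red h (x (b + j))) (fun j => red h (u j)) horb
    (fun i hi j hj hij => by
      by_contra hne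
      exact S.hinj (b + i) (by omega) (b + j) (by omega) (by omega) hij)
    hF q hq0 hqd hqc hqe
  -- the three zeros
  have hzero : ∀ i, b + C₀ ≤ i → i ≤ n → x i = y i → g.eval (red h (x i)) = 0 := by
    intro i hi hi' hxi
    have h1 := hg (i - b) (by omega) (by omega)
    have h2 : b + (i - b) = i := by omega
    simp only [h2] at h1
    rw [← h1]
    have h3 : u (i - b) = 0 := by
      have h4 := hu1 (i - b) (by omega)
      rw [h2, hxi] at h4
      have h5 : t * u (i - b) = 0 := by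
        have := h4.symm
        rwa [add_eq_left] at this
      exact (mul_eq_zero.1 h5).resolve_left ht0
    rw [h3, map_zero]
  have hg0 : g = 0 := by
    refine eq_zero_of_natDegree_lt_card_of_eval_eq_zero' g
      {red h (x i₁), red h (x i₂), red h (x i₃)} ?_ ?_
    · intro i hi
      rw [mem_insert, mem_insert, mem_singleton] at hi
      rcases hi with hi | hi | hi
      · rw [hi]; exact hzero i₁ hi₁ hi₁' he₁
      · rw [hi]; exact hzero i₂ hi₂ hi₂' he₂
      · rw [hi]; exact hzero i₃ hi₃ hi₃' he₃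
    · rw [card_insert_of_notMem, card_insert_of_notMem, card_singleton]
      · omega
      · rw [mem_singleton]
        exact S.hinj i₂ hi₂' i₃ hi₃' h23
      · rw [mem_insert, mem_singleton, not_or]
        exact ⟨S.hinj i₁ hi₁' i₂ hi₂' h12, S.hinj i₁ hi₁' i₃ hi₃' h13⟩
  have hF0 : F = 0 := by
    rw [← hgE, hg0, hev_zero_poly, mul_zero, sub_zero]
  have hu0 : ∀ j, C₀ ≤ j → j ≤ n - b → red h (u j) = 0 := by
    intro j hj hj'
    have h1 := hg j hj hj'
    rw [hg0, eval_zero] at h1
    exact h1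
  -- the index `s`
  have hus : red h (u (s - b)) = 1 := by
    have h1 : b + (s - b) = s := by omega
    have h2 : u (s - b) = 1 := by
      apply Subtype.ext
      rw [hu]
      simp only [h1, dif_pos hsn]
      rw [← ht]
      exact div_self htE
    rw [h2, map_one]
  have hsC : s - b < C₀ := by
    by_contra hcon
    have := hu0 (s - b) (by omega) (by omega)
    rw [hus] at this
    exact one_ne_zero this
  have hex : ∃ r, s - b < r ∧ red h (u r) = 0 := ⟨C₀, hsC, hu0 C₀ le_rfl (by omega)⟩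
  set r := Nat.find hex with hr
  have hr1 := (Nat.find_spec hex).1
  have hr2 := (Nat.find_spec hex).2
  have hr3 : r ≤ C₀ := Nat.find_min' hex ⟨hsC, hu0 C₀ le_rfl (by omega)⟩
  rw [← hr] at hr1 hr2
  refine ⟨b + r, by omega, by omega, ?_⟩
  obtain ⟨r', hr'⟩ : ∃ r', r = r' + 1 := ⟨r - 1, by omega⟩
  have hne : red h (u r') ≠ 0 := by
    by_cases hc : s - b < r'
    · intro h0
      exact Nat.find_min hex (m := r') (by omega) ⟨hc, h0⟩
    · have : r' = s - b := by omega
      rw [this, hus]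
      exact one_ne_zero
  have hstep := hF r' (by omega)
  rw [hF0, eval_zero, add_zero, ← hr', hr2] at hstep
  have h1 := den_ne_zero h S.hrat (S.hxs (b + r') (by omega))
  have h2 := (div_eq_zero_iff.1 hstep.symm).resolve_right (pow_ne_zero 2 h1)
  have h3 := (mul_eq_zero.1 h2).resolve_right hne
  have h4 : b + r - 1 = b + r' := by omega
  rw [h4]
  exact h3

/-- M6c -/
theorem rigidity_of (d m : ℕ) (hd : 2 ≤ d) (hdesc : DescentStmt d (2 * m)) : ∃ l₀ n₀ : ℕ,
    ∀ {k E : Type} [Field k] [IsAlgClosed k] [CharZero k] [Field E] [Algebra k E] (w : DV E),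
    ResK k w → ∀ A B A' B' : E[X], IsRat A B d → IsRat A' B' d → IsGood w d A B → IsGood w d A' B' →
    ∀ n n₁ : ℕ, n₀ ≤ n₁ → n₁ ≤ n → ∀ x y : ℕ → E, Orb A B x n → Orb A' B' y n →
    (∀ j ≤ n, w.ge 0 (x j) ∧ w.ge 0 (y j) ∧ w.ge 1 (y j - x j)) →
    (∀ i ≤ n, ∀ j ≤ n, i ≠ j → x i ≠ x j ∧ w.o (x i - x j) = 0) →
    ∀ p : Polynomial (Polynomial E), p ≠ 0 → p.natDegree < m → (∀ i, (p.coeff i).natDegree < m) →
      (∀ j ≤ n₁, (p.eval (C (y j))).eval (x j) = 0) →
    ∀ a b c : ℕ, a ≠ b → a ≠ c → b ≠ c → l₀ ≤ a → l₀ ≤ b → l₀ ≤ c → a ≤ n → b ≤ n → c ≤ n →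
      x a = y a → x b = y b → x c = y c →
    ∀ j, l₀ ≤ j → j ≤ n → x j = y j := by
  classical
  obtain ⟨C₀, n₀, hdesc⟩ := hdesc
  refine ⟨C₀ * (2 * d), C₀ * (2 * d) + C₀ + n₀ + (2 * d + 1), ?_⟩
  intro k E _ _ _ _ _ w h A B A' B' hAB hAB' hg hg' n n₁ hn₁ hn₁n x y hx hy hint hdist p hp hpd hpc
    hrel a b c hab hac hbc hla hlb hlc han hbn hcn hea heb hec
  have hd1 : 1 ≤ d := by omega
  obtain ⟨c₁, A₀, B₀, hc₁, hA, hB, hA₀, hB₀, hrat⟩ := exists_normal h hd1 hAB hg
  obtain ⟨c₂, P₀, Q₀, hc₂, hP, hQ, hP₀, hQ₀, hrat'⟩ := exists_normal h hd1 hAB' hg'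
  -- the orbits over the valuation ring
  set X : ℕ → O w := fun j => if hj : j ≤ n then ⟨x j, (hint j hj).1⟩ else 0 with hX
  set Y : ℕ → O w := fun j => if hj : j ≤ n then ⟨y j, (hint j hj).2.1⟩ else 0 with hY
  have hXx : ∀ j ≤ n, (X j : E) = x j := fun j hj => by rw [hX]; simp only [dif_pos hj]
  have hYy : ∀ j ≤ n, (Y j : E) = y j := fun j hj => by rw [hY]; simp only [dif_pos hj]
  have hcast : ∀ (G : (O w)[X]) (z : O w), ((G.eval z : O w) : E) =
      (G.map (O w).subtype).eval (z : E) := by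
    intro G z
    have := eval₂_at_apply (p := G) (O w).subtype z
    rw [← eval_map] at this
    exact this.symm
  have hxs : ∀ j < n, B₀.eval (X j) * X (j + 1) = A₀.eval (X j) := by
    intro j hj
    apply Subtype.ext
    push_cast
    rw [hcast, hcast, hXx j hj.le, hXx (j + 1) hj, hx.step j hj]
    have h1 := hx.ne j hj
    rw [hB, eval_mul, eval_C] at h1
    rw [hA, hB, eval_mul, eval_mul, eval_C]
    have h2 := right_ne_zero_of_mul h1
    field_simp
  have hys' : ∀ j < n, Q₀.eval (Y j) * Y (j + 1) = P₀.eval (Y j) := by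
    intro j hj
    apply Subtype.ext
    push_cast
    rw [hcast, hcast, hYy j hj.le, hYy (j + 1) hj, hy.step j hj]
    have h1 := hy.ne j hj
    rw [hQ, eval_mul, eval_C] at h1
    rw [hP, hQ, eval_mul, eval_mul, eval_C]
    have h2 := right_ne_zero_of_mul h1
    field_simp
  have hXY : ∀ j ≤ n, red h (Y j) = red h (X j) := by
    intro j hj
    rw [← sub_eq_zero, ← map_sub, red_eq_zero_iff]
    push_cast
    rw [hXx j hj, hYy j hj]
    exact (hint j hj).2.2
  have hinj : ∀ i ≤ n, ∀ j ≤ n, i ≠ j → red h (X i) ≠ red h (X j) := by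
    intro i hi j hj hij h0
    rw [← sub_eq_zero, ← map_sub, red_eq_zero_iff] at h0
    push_cast at h0
    rw [hXx i hi, hXx j hj] at h0
    obtain ⟨h1, h2⟩ := hdist i hi j hj hij
    rw [ge_one_iff (sub_ne_zero.2 h1), h2] at h0
    omega
  -- the reductions are proportional
  have hprop : P₀.map (red h) * B₀.map (red h) = A₀.map (red h) * Q₀.map (red h) := by
    have hinjF : Function.Injective (fun j : Fin (2 * d + 1) => red h (X j)) := by
      intro i j hij
      by_contra hne
      exact hinj i (by have := i.2; omega) j (by have := j.2; omega)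
        (fun h' => hne (Fin.ext h')) hij
    refine eq_of_natDegree_lt_card_of_eval_eq _ _ hinjF ?_ ?_
    · intro j
      have hj : (j : ℕ) < n := by have := j.2; omega
      have h1 := congrArg (red h) (hxs j hj)
      have h2 := congrArg (red h) (hys' j hj)
      rw [map_mul, red_eval, red_eval] at h1 h2
      rw [hXY j hj.le, hXY (j + 1) hj] at h2
      rw [eval_mul, eval_mul, ← h1, ← h2]
      ring
    · rw [Fintype.card_fin, max_lt_iff]
      constructor
      · refine lt_of_le_of_lt natDegree_mul_le ?_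
        have h1 := hrat'.dA
        have h2 := hrat.dB
        omega
      · refine lt_of_le_of_lt natDegree_mul_le ?_
        have h1 := hrat.dA
        have h2 := hrat'.dB
        omega
  obtain ⟨κ, hκ, hκP, hκQ⟩ := exists_scalar hd1 hrat hrat' hprop
  -- rescale
  have hmapC : ∀ G G' : (O w)[X], G.map (red h) = C κ * G'.map (red h) →
      (C (cst h κ⁻¹) * G).map (red h) = G'.map (red h) := by
    intro G G' hG
    rw [Polynomial.map_mul, map_C, red_cst, hG, ← mul_assoc, ← C_mul, inv_mul_cancel₀ hκ, C_1,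
      one_mul]
  have S : Sit h d A₀ B₀ (C (cst h κ⁻¹) * P₀) (C (cst h κ⁻¹) * Q₀) X Y n :=
    { hA := hA₀
      hB := hB₀
      hP := (natDegree_C_mul_le _ _).trans hP₀
      hQ := (natDegree_C_mul_le _ _).trans hQ₀
      hrat := hrat
      hPA := hmapC _ _ hκP
      hQB := hmapC _ _ hκQ
      hxs := hxs
      hys := by
        intro j hj
        rw [eval_mul, eval_mul, eval_C, mul_assoc, hys' j hj]
      hxy := hXY
      hinj := hinj }
  set W := derivative (A₀.map (red h)) * B₀.map (red h) -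
    A₀.map (red h) * derivative (B₀.map (red h)) with hW
  have hW0 : W ≠ 0 := wronskian_ne_zero hd1 hrat
  have hWd : W.natDegree ≤ 2 * d - 1 := wronskian_natDegree hd1 hrat
  -- critical indices
  set Cr : ℕ → Finset ℕ := fun b₀ => (Finset.Ico b₀ n).filter
    (fun j => W.eval (red h (X j)) = 0) with hCr
  have hCr0 : (Cr 0).card ≤ 2 * d - 1 := by
    have h1 : (Cr 0).card ≤ W.roots.toFinset.card := by
      refine Finset.card_le_card_of_injOn (fun j => red h (X j)) ?_ ?_
      · intro j hj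
        rw [hCr, Finset.mem_coe, mem_filter] at hj
        rw [Finset.mem_coe, Multiset.mem_toFinset, mem_roots hW0]
        exact hj.2
      · intro i hi j hj hij
        rw [hCr, Finset.mem_coe, mem_filter, mem_Ico] at hi hj
        by_contra hne
        exact hinj i hi.1.2.le j hj.1.2.le hne hij
    exact h1.trans ((Multiset.toFinset_card_le _).trans ((card_roots' W).trans hWd))
  have hXe : ∀ j ≤ n, x j = y j → X j = Y j := by
    intro j hj hxyj
    apply Subtype.ext
    rw [hXx j hj, hYy j hj, hxyj]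
  have claim : ∀ N : ℕ, N ≤ 2 * d - 1 → ∀ b₀ : ℕ, (Cr b₀).card ≤ N →
      b₀ + C₀ * N ≤ C₀ * (2 * d - 1) → ∀ j, b₀ + C₀ * N ≤ j → j ≤ n → X j = Y j := by
    intro N
    induction N with
    | zero =>
      intro _ b₀ hcr hb₀ j hj hjn
      rw [mul_zero, add_zero] at hb₀ hj
      have e1 : C₀ * (2 * d - 1) + C₀ = C₀ * (2 * d) := by
        obtain ⟨e, he⟩ : ∃ e, 2 * d = e + 1 := ⟨2 * d - 1, by omega⟩
        rw [he, Nat.add_sub_cancel]
        ring
      rcases one_round hd (hdesc (k := k)) S hp hpd hpc hn₁n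
        (fun j hj => by
          rw [hXx j (by omega), hYy j (by omega)]
          exact hrel j hj) (b := b₀) (by omega) hab hac hbc (by omega) (by omega) (by omega)
        han hbn hcn (hXe a han hea) (hXe b hbn heb) (hXe c hcn hec) with h1 | ⟨b', hb'1, hb'2, hb'3⟩
      · exact h1 j hj hjn
      · exfalso
        have h1 : b' - 1 ∈ Cr b₀ := by
          rw [hCr, mem_filter, mem_Ico]
          exact ⟨⟨by omega, by omega⟩, hb'3⟩
        have h2 : 0 < (Cr b₀).card := Finset.card_pos.2 ⟨_, h1⟩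
        omega
    | succ N ih =>
      intro hN b₀ hcr hb₀ j hj hjn
      have e1 : C₀ * (2 * d - 1) + C₀ = C₀ * (2 * d) := by
        obtain ⟨e, he⟩ : ∃ e, 2 * d = e + 1 := ⟨2 * d - 1, by omega⟩
        rw [he, Nat.add_sub_cancel]
        ring
      have e2 : C₀ * (N + 1) = C₀ * N + C₀ := by ring
      rcases one_round hd (hdesc (k := k)) S hp hpd hpc hn₁n
        (fun j hj => by
          rw [hXx j (by omega), hYy j (by omega)]
          exact hrel j hj) (b := b₀) (by omega) hab hac hbc (by omega) (by omega) (by omega)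
        han hbn hcn (hXe a han hea) (hXe b hbn heb) (hXe c hcn hec) with h1 | ⟨b', hb'1, hb'2, hb'3⟩
      · exact h1 j (by omega) hjn
      · have h1 : Cr b' ⊂ Cr b₀ := by
          rw [Finset.ssubset_iff_of_subset]
          · refine ⟨b' - 1, ?_, ?_⟩
            · rw [hCr, mem_filter, mem_Ico]
              exact ⟨⟨by omega, by omega⟩, hb'3⟩
            · rw [hCr, mem_filter, mem_Ico]
              omega
          · intro i hi
            rw [hCr, mem_filter, mem_Ico] at hi ⊢
            exact ⟨⟨by omega, hi.1.2⟩, hi.2⟩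
        have h2 := Finset.card_lt_card h1
        exact ih (by omega) b' (by omega) (by omega) j (by omega) hjn
  intro j hj hjn
  have e1 : C₀ * (2 * d - 1) ≤ C₀ * (2 * d) := Nat.mul_le_mul_left _ (by omega)
  have hfin := claim (2 * d - 1) le_rfl 0 hCr0 (by omega) j (by omega) hjn
  rw [← hXx j hjn, ← hYy j hjn, hfin]

end main

end Pool.Agent.Helper53.PS
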