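import Pool.Agent.Helper53.PS.Red

/-!
# Plan S, module M6c: one round of the lifting argument (abstract ring version)
-/

set_option autoImplicit false
set_option linter.unusedSectionVars false

open Finset Polynomial

namespace Pool.Agent.Helper53.PS

open Pool.Agent.Helper33 Pool.Agent.Helper33.PS

section abs

variable {R k : Type*} [CommRing R] [IsDomain R] [Field k] (red : R →+* k)

/-- interpolation: a polynomial with values divisible by `t` at many points which are distinct
modulo the maximal ideal is divisible by `t` -/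
lemma exists_div {N : ℕ} (hunit : ∀ r, red r ≠ 0 → IsUnit r) (D : R[X]) (hD : D.natDegree < N)
    (x : ℕ → R) (hx : ∀ i < N, ∀ j < N, i ≠ j → red (x i) ≠ red (x j)) (t : R)
    (ht : ∀ j < N, ∃ r, D.eval (x j) = t * r) :
    ∃ F : R[X], F.natDegree < N ∧ D = C t * F := by
  classical
  -- the inverses of the differences
  have hinv : ∀ i j, ∃ y : R, i < N → j < N → i ≠ j → (x j - x i) * y = 1 := by
    intro i j
    by_cases h : i < N ∧ j < N ∧ i ≠ j
    · have h1 : red (x j - x i) ≠ 0 := by
        rw [map_sub, sub_ne_zero]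
        exact (hx i h.1 j h.2.1 h.2.2).symm
      obtain ⟨y, hy⟩ := (hunit _ h1).exists_right_inv
      exact ⟨y, fun _ _ _ => hy⟩
    · exact ⟨0, fun a b c => absurd ⟨a, b, c⟩ h⟩
  choose q hq using hinv
  have hr : ∀ j, ∃ r, j < N → D.eval (x j) = t * r := by
    intro j
    by_cases h : j < N
    · obtain ⟨r, hr⟩ := ht j h
      exact ⟨r, fun _ => hr⟩
    · exact ⟨0, fun h' => absurd h' h⟩
  choose r hr using hr
  have hN : 0 < N := by omega
  set Lg : ℕ → R[X] := fun j => ∏ i ∈ (range N).erase j, (C (q i j) * (X - C (x i))) with hLg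
  have hLd : ∀ j < N, (Lg j).natDegree < N := by
    intro j hj
    refine lt_of_le_of_lt (natDegree_prod_le _ _) ?_
    calc ∑ i ∈ (range N).erase j, (C (q i j) * (X - C (x i))).natDegree
        ≤ ∑ i ∈ (range N).erase j, 1 := by
          refine sum_le_sum fun i _ => ?_
          exact (natDegree_C_mul_le _ _).trans (natDegree_X_sub_C_le _)
      _ = N - 1 := by
          rw [sum_const, smul_eq_mul, mul_one, card_erase_of_mem (mem_range.2 hj), card_range]
      _ < N := by omega
  have hLe : ∀ j < N, ∀ l < N, (Lg j).eval (x l) = if l = j then 1 else 0 := by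
    intro j hj l hl
    rw [hLg]
    simp only
    rw [eval_prod]
    split_ifs with h
    · subst h
      refine prod_eq_one fun i hi => ?_
      rw [mem_erase, mem_range] at hi
      rw [eval_mul, eval_C, eval_sub, eval_X, eval_C, mul_comm]
      exact hq i l hi.2 hl hi.1
    · refine prod_eq_zero (i := l) ?_ ?_
      · rw [mem_erase, mem_range]
        exact ⟨h, hl⟩
      · simp
  refine ⟨∑ j ∈ range N, C (r j) * Lg j, ?_, ?_⟩
  · rw [Nat.lt_iff_le_pred hN]
    refine natDegree_sum_le_of_forall_le _ _ fun j hj => ?_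
    rw [mem_range] at hj
    have := hLd j hj
    have h2 := natDegree_C_mul_le (r j) (Lg j)
    change _ ≤ N - 1
    omega
  · have hinj : Function.Injective (fun j : Fin N => x j) := by
      intro a b hab
      by_contra hne
      exact hx a a.2 b b.2 (fun h => hne (Fin.ext h)) (by
        have : x a = x b := hab
        rw [this])
    refine eq_of_natDegree_lt_card_of_eval_eq _ _ hinj ?_ ?_
    · intro j
      rw [hr j j.2, eval_mul, eval_C, eval_finset_sum, sum_eq_single (j : ℕ)]
      · rw [eval_mul, eval_C, hLe j j.2 j j.2, if_pos rfl, mul_one]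
      · intro l hl hlj
        rw [mem_range] at hl
        rw [eval_mul, hLe l hl j j.2, if_neg (Ne.symm hlj), mul_zero]
      · intro h
        exact absurd (mem_range.2 j.2) h
    · rw [Fintype.card_fin, max_lt_iff]
      refine ⟨hD, ?_⟩
      refine lt_of_le_of_lt (natDegree_C_mul_le _ _) ?_
      rw [Nat.lt_iff_le_pred hN]
      refine natDegree_sum_le_of_forall_le _ _ fun j hj => ?_
      rw [mem_range] at hj
      have := hLd j hj
      have h2 := natDegree_C_mul_le (r j) (Lg j)
      change _ ≤ N - 1
      omega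

/-- one round of the lifting argument -/
lemma round_step {d : ℕ} (hunit : ∀ r, red r ≠ 0 → IsUnit r) {A B P Q : R[X]}
    (hA : A.natDegree ≤ d) (hB : B.natDegree ≤ d) (hP : P.natDegree ≤ d) (hQ : Q.natDegree ≤ d)
    (hPA : P.map red = A.map red) (hQB : Q.map red = B.map red)
    {n : ℕ} (hn : 2 * d + 1 ≤ n) {x y u : ℕ → R} {t : R} (ht0 : t ≠ 0) (htr : red t = 0)
    (hxy : ∀ j ≤ n, y j = x j + t * u j)
    (hxs : ∀ j < n, B.eval (x j) * x (j + 1) = A.eval (x j))
    (hys : ∀ j < n, Q.eval (y j) * y (j + 1) = P.eval (y j))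
    (hinj : ∀ i < n, ∀ j < n, i ≠ j → red (x i) ≠ red (x j))
    (hBx : ∀ j < n, (B.map red).eval (red (x j)) ≠ 0) :
    ∃ F : k[X], F.natDegree ≤ 2 * d ∧ ∀ j < n, red (u (j + 1)) =
      ((derivative (A.map red) * B.map red - A.map red * derivative (B.map red)).eval (red (x j)) *
        red (u j) + F.eval (red (x j))) / ((B.map red).eval (red (x j))) ^ 2 := by
  have key : ∀ j < n, ∃ k₁ k₂ : R, (P * B - Q * A).eval (x j) +
      t * u j * (derivative P * B - derivative Q * A).eval (x j) +
      (t * u j) ^ 2 * (k₁ * B.eval (x j) - k₂ * A.eval (x j)) =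
      Q.eval (y j) * B.eval (x j) * (t * u (j + 1)) := by
    intro j hj
    obtain ⟨k₁, h1⟩ := binomExpansion P (x j) (t * u j)
    obtain ⟨k₂, h2⟩ := binomExpansion Q (x j) (t * u j)
    refine ⟨k₁, k₂, ?_⟩
    rw [← hxy j hj.le] at h1 h2
    have h3 := hxs j hj
    have h4 := hys j hj
    have h5 : t * u (j + 1) = y (j + 1) - x (j + 1) := by
      rw [hxy (j + 1) hj]
      ring
    rw [h5]
    have h6 : Q.eval (y j) * B.eval (x j) * (y (j + 1) - x (j + 1)) =
        P.eval (y j) * B.eval (x j) - Q.eval (y j) * A.eval (x j) := by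
      linear_combination B.eval (x j) * h4 - Q.eval (y j) * h3
    rw [h6, h1, h2]
    simp only [eval_sub, eval_mul]
    ring
  -- divisibility of `P B - Q A` by `t`
  have hdeg : (P * B - Q * A).natDegree < 2 * d + 1 := by
    have h1 : (P * B).natDegree ≤ 2 * d := by
      refine natDegree_mul_le.trans ?_
      omega
    have h2 : (Q * A).natDegree ≤ 2 * d := by
      refine natDegree_mul_le.trans ?_
      omega
    have := natDegree_sub_le_of_le h1 h2
    rw [max_self] at this
    omega
  obtain ⟨F, hFd, hF⟩ := exists_div red hunit (P * B - Q * A) hdeg x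
    (fun i hi j hj hij => hinj i (by omega) j (by omega) hij) t (by
      intro j hj
      obtain ⟨k₁, k₂, h⟩ := key j (by omega)
      refine ⟨Q.eval (y j) * B.eval (x j) * u (j + 1) -
        u j * (derivative P * B - derivative Q * A).eval (x j) -
        t * u j ^ 2 * (k₁ * B.eval (x j) - k₂ * A.eval (x j)), ?_⟩
      linear_combination h)
  refine ⟨F.map red, (natDegree_map_le).trans (by omega), ?_⟩
  intro j hj
  obtain ⟨k₁, k₂, h⟩ := key j hj
  rw [hF, eval_mul, eval_C] at h
  have h2 : F.eval (x j) + u j * (derivative P * B - derivative Q * A).eval (x j) +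
      t * u j ^ 2 * (k₁ * B.eval (x j) - k₂ * A.eval (x j)) =
      Q.eval (y j) * B.eval (x j) * u (j + 1) := by
    have h3 : t * (F.eval (x j) + u j * (derivative P * B - derivative Q * A).eval (x j) +
      t * u j ^ 2 * (k₁ * B.eval (x j) - k₂ * A.eval (x j))) =
      t * (Q.eval (y j) * B.eval (x j) * u (j + 1)) := by
      linear_combination h
    exact mul_left_cancel₀ ht0 h3
  have h4 := congrArg red h2
  have hev : ∀ (G : R[X]) (z : R), red (G.eval z) = (G.map red).eval (red z) := by
    intro G z
    rw [eval_map, eval₂_at_apply]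
  have hyx : red (y j) = red (x j) := by
    rw [hxy j hj.le, map_add, map_mul, htr, zero_mul, add_zero]
  simp only [map_add, map_mul, map_sub, map_pow, htr, zero_mul, add_zero, hev, hyx, hQB,
    Polynomial.map_sub, Polynomial.map_mul, ← derivative_map, hPA] at h4
  have h5 := hBx j hj
  rw [eq_div_iff (pow_ne_zero 2 h5)]
  simp only [eval_sub, eval_mul] at h4 ⊢
  linear_combination (-1 : k) * h4

end abs

end Pool.Agent.Helper53.PS
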